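import Pool.Agent.W8.LS.Stm

open scoped Topology ContDiff
open Filter

namespace Pool.Agent.W922.LS

open Pool.Agent.W8.LS

noncomputable section

theorem deriv_nonneg_of_mono {f : ℝ → ℝ} {f' x : ℝ} (hf : Monotone f) (h : HasDerivAt f f' x) :
    0 ≤ f' := by
  rw [hasDerivAt_iff_tendsto_slope] at h
  refine ge_of_tendsto h ?_
  filter_upwards with y
  rw [slope_def_field]
  rcases le_total x y with hxy | hxy
  · exact div_nonneg (sub_nonneg.2 (hf hxy)) (sub_nonneg.2 hxy)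
  · exact div_nonneg_of_nonpos (sub_nonpos.2 (hf hxy)) (sub_nonpos.2 hxy)

def eta (s : ℝ) : ℝ := Real.smoothTransition ((s - 4) / 12)

theorem eta_mono : Monotone eta := by
  intro x y h
  exact Real.smoothTransition.monotone (by linarith)

theorem eta_smooth : ContDiff ℝ ∞ eta := by
  unfold eta
  exact Real.smoothTransition.contDiff.comp (by fun_prop)

theorem eta_zero {s : ℝ} (h : s ≤ 4) : eta s = 0 :=
  Real.smoothTransition.zero_of_nonpos (by linarith)

theorem eta_one {s : ℝ} (h : 16 ≤ s) : eta s = 1 :=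
  Real.smoothTransition.one_of_one_le (by linarith)

theorem eta_nonneg (s : ℝ) : 0 ≤ eta s := Real.smoothTransition.nonneg _

theorem eta_le (s : ℝ) : eta s ≤ 1 := Real.smoothTransition.le_one _

def Bf (s : ℝ) : ℝ := (1 - eta s) / 8 + eta s * ((1 - 2 * s⁻¹ + s⁻¹ ^ 2) / 4)

def Af (s : ℝ) : ℝ := Bf s + eta s * s⁻¹

theorem Bf_lt {s : ℝ} (h : s ≤ 4) : Bf s = 1 / 8 := by
  unfold Bf; rw [eta_zero h]; ring

theorem Af_lt {s : ℝ} (h : s ≤ 4) : Af s = 1 / 8 := by
  unfold Af; rw [Bf_lt h, eta_zero h]; ring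

theorem Bf_smooth : ContDiff ℝ ∞ Bf := by
  rw [contDiff_iff_contDiffAt]
  intro s
  by_cases h : s < 4
  · refine (contDiffAt_const (c := (1 / 8 : ℝ))).congr_of_eventuallyEq ?_
    filter_upwards [Iio_mem_nhds h] with t ht
    exact Bf_lt (le_of_lt ht)
  · have hs : s ≠ 0 := by intro h0; apply h; rw [h0]; norm_num
    have h1 : ContDiffAt ℝ ∞ (fun s : ℝ => s⁻¹) s := contDiffAt_inv ℝ hs
    have he : ContDiffAt ℝ ∞ eta s := eta_smooth.contDiffAt
    exact ((contDiffAt_const.sub he).div_const 8).add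
      (he.mul (((contDiffAt_const.sub (contDiffAt_const.mul h1)).add (h1.pow 2)).div_const 4))

theorem Af_smooth : ContDiff ℝ ∞ Af := by
  rw [contDiff_iff_contDiffAt]
  intro s
  by_cases h : s < 4
  · refine (contDiffAt_const (c := (1 / 8 : ℝ))).congr_of_eventuallyEq ?_
    filter_upwards [Iio_mem_nhds h] with t ht
    exact Af_lt (le_of_lt ht)
  · have hs : s ≠ 0 := by intro h0; apply h; rw [h0]; norm_num
    have h1 : ContDiffAt ℝ ∞ (fun s : ℝ => s⁻¹) s := contDiffAt_inv ℝ hs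
    have he : ContDiffAt ℝ ∞ eta s := eta_smooth.contDiffAt
    exact (Bf_smooth.contDiffAt).add (he.mul h1)

theorem Bf_pos (s : ℝ) : 0 < Bf s := by
  rcases le_or_gt s 4 with h | h
  · rw [Bf_lt h]; norm_num
  · have h1 : s⁻¹ < 1 / 4 := by
      rw [inv_lt_comm₀ (by linarith) (by norm_num)]; norm_num; exact h
    have h2 := eta_nonneg s
    have h3 := eta_le s
    have h4 : (1:ℝ) / 8 ≤ (1 - 2 * s⁻¹ + s⁻¹ ^ 2) / 4 := by
      nlinarith
    unfold Bf
    nlinarith

theorem Af_pos (s : ℝ) : 0 < Af s := by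
  rcases le_or_gt s 4 with h | h
  · rw [Af_lt h]; norm_num
  · have h1 : 0 < s⁻¹ := by positivity
    have := Bf_pos s
    have h2 := eta_nonneg s
    unfold Af
    nlinarith

theorem der_B {s : ℝ} (hs : 4 ≤ s) : ∃ d, 0 < d ∧ HasDerivAt (fun s => s * Bf s) d s := by
  have hs0 : s ≠ 0 := by linarith
  have he : HasDerivAt eta (deriv eta s) s :=
    ((eta_smooth.differentiable (by simp)) s).hasDerivAt
  have hd := deriv_nonneg_of_mono eta_mono he
  set d := deriv eta s
  have hi : HasDerivAt (fun s : ℝ => s⁻¹) (-(s ^ 2)⁻¹) s := hasDerivAt_inv hs0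
  have h1 : HasDerivAt (fun s : ℝ => (1 - eta s) * (s / 8) + eta s * ((s - 2 + s⁻¹) / 4))
      ((-d) * (s / 8) + (1 - eta s) * (1 / 8) +
        (d * ((s - 2 + s⁻¹) / 4) + eta s * ((1 + -(s ^ 2)⁻¹) / 4))) s := by
    have ha : HasDerivAt (fun s : ℝ => 1 - eta s) (-d) s := he.const_sub 1
    have hb : HasDerivAt (fun s : ℝ => s / 8) (1 / 8) s := (hasDerivAt_id s).div_const 8
    have hc : HasDerivAt (fun s : ℝ => (s - 2 + s⁻¹) / 4) ((1 + -(s ^ 2)⁻¹) / 4) s :=
      (((hasDerivAt_id s).sub_const 2).add hi).div_const 4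
    exact (ha.mul hb).add (he.mul hc)
  refine ⟨_, ?_, h1.congr_of_eventuallyEq ?_⟩
  · have h2 := eta_nonneg s
    have h3 := eta_le s
    have h4 : 0 < s⁻¹ := by positivity
    have h5 : (s ^ 2)⁻¹ ≤ 1 / 16 := by
      rw [inv_le_comm₀ (by positivity) (by norm_num)]
      norm_num
      nlinarith
    have h6 : 0 ≤ d * ((s - 2 + s⁻¹) / 4 - s / 8) := by
      apply mul_nonneg hd
      linarith
    have h7 : 0 < (1 - eta s) * (1 / 8) + eta s * ((1 + -(s ^ 2)⁻¹) / 4) := by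
      have : (1:ℝ) / 8 ≤ (1 + -(s ^ 2)⁻¹) / 4 := by linarith
      nlinarith
    nlinarith
  · filter_upwards [Ioi_mem_nhds (show (0:ℝ) < s by linarith)] with t ht
    have ht0 : t ≠ 0 := ne_of_gt ht
    unfold Bf
    field_simp

theorem der_A {s : ℝ} (hs : 4 ≤ s) : ∃ d, 0 < d ∧ HasDerivAt (fun s => s * Af s) d s := by
  obtain ⟨d, hd, h⟩ := der_B hs
  have he : HasDerivAt eta (deriv eta s) s :=
    ((eta_smooth.differentiable (by simp)) s).hasDerivAt
  have hd' := deriv_nonneg_of_mono eta_mono he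
  refine ⟨d + deriv eta s, by linarith, (h.add he).congr_of_eventuallyEq ?_⟩
  filter_upwards [Ioi_mem_nhds (show (0:ℝ) < s by linarith)] with t ht
  have ht0 : t ≠ 0 := ne_of_gt ht
  unfold Af
  show t * (Bf t + eta t * t⁻¹) = t * Bf t + eta t
  field_simp

theorem der_small {F : ℝ → ℝ} (hF : ∀ s, s ≤ 4 → F s = 1 / 8) {s : ℝ} (hs : s < 4) :
    HasDerivAt (fun s => s * F s) (1 / 8) s := by
  have hb : HasDerivAt (fun s : ℝ => s / 8) (1 / 8) s := (hasDerivAt_id s).div_const 8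
  refine hb.congr_of_eventuallyEq ?_
  filter_upwards [Iio_mem_nhds hs] with t ht
  rw [hF t (le_of_lt ht)]; ring

theorem GRad_proof : GRad := by
  have hsqA : ∀ s, Real.sqrt (Af s) ^ 2 = Af s := fun s => Real.sq_sqrt (Af_pos s).le
  have hsqB : ∀ s, Real.sqrt (Bf s) ^ 2 = Bf s := fun s => Real.sq_sqrt (Bf_pos s).le
  refine ⟨fun s => Real.sqrt (Af s), fun s => Real.sqrt (Bf s), ?_, ?_, ?_, ?_, ?_, ?_, ?_, ?_⟩
  · exact Af_smooth.sqrt fun s => (Af_pos s).ne'
  · exact Bf_smooth.sqrt fun s => (Bf_pos s).ne'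
  · exact fun s _ => Real.sqrt_pos.2 (Af_pos s)
  · exact fun s _ => Real.sqrt_pos.2 (Bf_pos s)
  · intro s _
    simp only [hsqA]
    rcases lt_or_ge s 4 with h | h
    · rw [(der_small (fun s hs => Af_lt hs) h).deriv]; norm_num
    · obtain ⟨d, hd, h⟩ := der_A h
      rw [h.deriv]; exact hd
  · intro s _
    simp only [hsqB]
    rcases lt_or_ge s 4 with h | h
    · rw [(der_small (fun s hs => Bf_lt hs) h).deriv]; norm_num
    · obtain ⟨d, hd, h⟩ := der_B h
      rw [h.deriv]; exact hd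
  · intro s hs
    have hs0 : s ≠ 0 := by linarith
    show s * Real.sqrt (Af s) ^ 2 = _
    rw [hsqA]
    unfold Af Bf
    rw [eta_one hs]
    field_simp
    ring
  · intro s hs
    have hs0 : s ≠ 0 := by linarith
    show s * Real.sqrt (Bf s) ^ 2 = _
    rw [hsqB]
    unfold Bf
    rw [eta_one hs]
    field_simp
    ring

end

end Pool.Agent.W922.LS
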